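import Pool.Agent.H311Z.PolyMain

namespace Pool.Agent.Results.MP_5a868e_co.NotRegular

open Pool.Agent.H311Z.Poly

/-- For every finite `d ≥ 2` the pattern `{x, y, x + y, x y}` is not partition regular over
`P d`. -/
theorem result : ∀ d : ℕ, 2 ≤ d → ¬ PartitionRegular d := fun d _ => main d

end Pool.Agent.Results.MP_5a868e_co.NotRegular
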